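import Pool.Agent.W894.HT.Lib

/-! # HT-REST -/

namespace Pool.Agent.W346.HTR

open Pool.Agent.W894.HT

theorem mem_ddg {N : Type} [DecidableEq N] (l : List N) (x : N) : x ∈ ddg l ↔ x ∈ l := by
  induction l with
  | nil => simp [ddg]
  | cons a l ih =>
    have e : ddg (a :: l) = if a ∈ ddg l then ddg l else a :: ddg l := rfl
    rw [e]
    by_cases h : a ∈ ddg l
    · rw [if_pos h, List.mem_cons, ih]
      constructor
      · exact Or.inr
      · rintro (rfl | h')
        · exact ih.1 h
        · exact h'
    · rw [if_neg h, List.mem_cons, List.mem_cons, ih]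

theorem nodup_ddg {N : Type} [DecidableEq N] (l : List N) : (ddg l).Nodup := by
  induction l with
  | nil => simp [ddg]
  | cons a l ih =>
    have e : ddg (a :: l) = if a ∈ ddg l then ddg l else a :: ddg l := rfl
    rw [e]
    by_cases h : a ∈ ddg l
    · rw [if_pos h]; exact ih
    · rw [if_neg h]; exact List.nodup_cons.2 ⟨h, ih⟩

theorem mem_restS (S : Stg) (v : Nm) : v ∈ restS S ↔
    (∃ p ∈ EE S, v = p.1 ∨ v = p.2) ∧ v ≠ hub 0 ∧ v ≠ hub S.length := by
  unfold restS
  rw [List.mem_filter, mem_ddg, List.mem_flatMap]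
  simp

theorem main : S_REST := by
  intro S hS
  have hne : hub 0 ≠ hub S.length := by
    intro h
    have h1 : (0 : ℕ) = S.length := congrArg (fun v : Nm => v.2.1) h
    exact hS (List.length_eq_zero_iff.1 h1.symm)
  constructor
  · rw [List.nodup_cons, List.nodup_cons, List.mem_cons]
    refine ⟨?_, ?_, ?_⟩
    · rintro (h | h)
      · exact hne h
      · exact ((mem_restS S _).1 h).2.1 rfl
    · intro h
      exact ((mem_restS S _).1 h).2.2 rfl
    · exact (nodup_ddg _).filter _
  · intro p hp
    have key : ∀ v : Nm, (v = p.1 ∨ v = p.2) → v ∈ hub 0 :: hub S.length :: restS S := by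
      intro v hv
      by_cases h1 : v = hub 0
      · rw [h1]; exact List.mem_cons_self
      · by_cases h2 : v = hub S.length
        · rw [h2]; exact List.mem_cons_of_mem _ List.mem_cons_self
        · exact List.mem_cons_of_mem _ (List.mem_cons_of_mem _
            ((mem_restS S v).2 ⟨⟨p, hp, hv⟩, h1, h2⟩))
    exact ⟨key _ (Or.inl rfl), key _ (Or.inr rfl)⟩

end Pool.Agent.W346.HTR
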